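import Pool.Agent.Sym20c8.Defs

/-! # The Alexander polynomial `det (V - X Vᵀ)` and its behaviour under S-equivalence -/

namespace Pool.Agent.Sym20c8

open Matrix Polynomial

/-- `V - X Vᵀ`. -/
noncomputable def axM {ι : Type} (V : Matrix ι ι ℤ) : Matrix ι ι ℤ[X] :=
  V.map C - (X : ℤ[X]) • (Vᵀ.map C)

lemma axM_apply {ι : Type} (V : Matrix ι ι ℤ) (i j : ι) :
    axM V i j = C (V i j) - X * C (V j i) := by
  simp [axM]

/-- The Alexander polynomial. -/
noncomputable def alex (A : SqM) : ℤ[X] := (axM A.V).det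

lemma alex_eval_one (A : SqM) : (alex A).eval 1 = (A.V - A.Vᵀ).det := by
  unfold alex
  rw [← coe_evalRingHom, RingHom.map_det]
  congr 1
  ext i j
  simp [axM_apply]

lemma alex_eval_neg_one (A : SqM) : (alex A).eval (-1) = (A.V + A.Vᵀ).det := by
  unfold alex
  rw [← coe_evalRingHom, RingHom.map_det]
  congr 1
  ext i j
  simp [axM_apply]

lemma isSeifert_iff (A : SqM) : IsSeifert A ↔ (alex A).eval 1 = 1 := by
  rw [alex_eval_one, IsSeifert]

lemma det_PtP {m n : Type} [Fintype m] [Fintype n] [DecidableEq m] [DecidableEq n]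
    (P : Matrix m n ℤ) (Q : Matrix n m ℤ) (hPQ : P * Q = 1) (hQP : Q * P = 1) :
    (Pᵀ * P).det = 1 := by
  have e : n ≃ m := Matrix.indexEquivOfInv hQP hPQ
  have h1 : (Pᵀ * P).det * (Q * Qᵀ).det = 1 := by
    rw [← det_mul]
    have : Pᵀ * P * (Q * Qᵀ) = 1 := by
      calc Pᵀ * P * (Q * Qᵀ) = Pᵀ * (P * Q) * Qᵀ := by simp only [Matrix.mul_assoc]
        _ = (Q * P)ᵀ := by rw [hPQ, Matrix.mul_one, Matrix.transpose_mul]
        _ = 1 := by rw [hQP, Matrix.transpose_one]
    rw [this, det_one]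
  have h2 : (Pᵀ * P) = (P.submatrix e id)ᵀ * (P.submatrix e id) := by
    ext i j
    simp only [Matrix.mul_apply, Matrix.transpose_apply, Matrix.submatrix_apply, id]
    exact (Equiv.sum_comp e fun k => P k i * P k j).symm
  have h3 : (Pᵀ * P).det = (P.submatrix e id).det ^ 2 := by
    rw [h2, det_mul, det_transpose]; ring
  have h4 : IsUnit (Pᵀ * P).det := IsUnit.of_mul_eq_one _ h1
  rcases Int.isUnit_iff.1 h4 with h | h
  · exact h
  · exfalso; rw [h3] at h; nlinarith [sq_nonneg (P.submatrix e id).det]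

lemma axM_congr {m n : Type} [Fintype m] [Fintype n] [DecidableEq m] [DecidableEq n]
    (V : Matrix n n ℤ) (P : Matrix m n ℤ) :
    axM (P * V * Pᵀ) = (P.map C) * axM V * (P.map C)ᵀ := by
  unfold axM
  rw [Matrix.mul_sub, Matrix.sub_mul, Matrix.mul_smul, Matrix.smul_mul]
  congr 1
  · rw [Matrix.map_mul, Matrix.map_mul, Matrix.transpose_map]
  · rw [Matrix.transpose_mul, Matrix.transpose_mul, Matrix.transpose_transpose,
      Matrix.map_mul, Matrix.map_mul, Matrix.mul_assoc, Matrix.transpose_map (M := P)]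

lemma alex_congr {A B : SqM} (P : Matrix B.ι A.ι ℤ) (Q : Matrix A.ι B.ι ℤ) (hPQ : P * Q = 1)
    (hQP : Q * P = 1) (h : B.V = P * A.V * Pᵀ) : alex B = alex A := by
  unfold alex
  rw [h, axM_congr, Matrix.mul_assoc]
  have h1 : (P.map C : Matrix _ _ ℤ[X]) * (Q.map C) = 1 := by
    rw [← Matrix.map_mul, hPQ]; simp
  have h2 : (Q.map C : Matrix _ _ ℤ[X]) * (P.map C) = 1 := by
    rw [← Matrix.map_mul, hQP]; simp
  rw [Matrix.det_comm' h1 h2, Matrix.mul_assoc, det_mul]
  have h3 : ((P.map C)ᵀ * (P.map C) : Matrix _ _ ℤ[X]) = (Pᵀ * P).map C := by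
    rw [Matrix.map_mul, Matrix.transpose_map]
  rw [h3]
  have h4 : ((Pᵀ * P).map (C : ℤ →+* ℤ[X])).det = 1 := by
    have := (RingHom.map_det (C : ℤ →+* ℤ[X]) (Pᵀ * P)).symm
    rw [det_PtP P Q hPQ hQP, map_one] at this
    simpa using this
  rw [h4, mul_one]

section raw

variable {ι : Type} [Fintype ι] [DecidableEq ι]

lemma det_axM_row (V : Matrix ι ι ℤ) (ξ : ι → ℤ) :
    (axM (fromBlocks V (Matrix.of fun i => ![ξ i, 0]) 0 !![0, 1; 0, 0])).det
      = X * (axM V).det := by
  have h1 : axM (fromBlocks V (Matrix.of fun i => ![ξ i, 0]) 0 !![0, 1; 0, 0])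
      = fromBlocks (axM V) (Matrix.of fun i => ![C (ξ i), 0])
      (Matrix.of ![fun i => - (X * C (ξ i)), 0]) !![0, 1; -X, 0] := by
    ext1 i j
    rcases i with i | i <;> rcases j with j | j
    · simp [axM_apply]
    · fin_cases j <;> simp [axM_apply]
    · fin_cases i <;> simp [axM_apply]
    · fin_cases i <;> fin_cases j <;> simp [axM_apply]
  have h2 : axM (fromBlocks V (Matrix.of fun i => ![ξ i, 0]) 0 !![0, 1; 0, 0])
      * fromBlocks 1 0 (Matrix.of ![0, fun i => X * C (ξ i)]) 1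
      = fromBlocks (axM V) (Matrix.of fun i => ![C (ξ i), 0]) 0 !![0, 1; -X, 0] := by
    rw [h1, fromBlocks_multiply]
    congr 1
    · ext1 i j
      simp [Matrix.mul_apply, Fin.sum_univ_two]
    · simp
    · ext1 i j
      fin_cases i <;> simp [Matrix.mul_apply, Fin.sum_univ_two]
    · simp
  have h3 := congrArg Matrix.det h2
  rw [det_mul, det_fromBlocks_zero₁₂, det_fromBlocks_zero₂₁] at h3
  simp only [det_one, mul_one] at h3
  rw [h3, det_fin_two]
  simp
  ring

lemma det_axM_col (V : Matrix ι ι ℤ) (ξ : ι → ℤ) :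
    (axM (fromBlocks V 0 (Matrix.of ![ξ, 0]) !![0, 0; 1, 0])).det = X * (axM V).det := by
  have h1 : axM (fromBlocks V 0 (Matrix.of ![ξ, 0]) !![0, 0; 1, 0])
      = fromBlocks (axM V) (Matrix.of fun i => ![- (X * C (ξ i)), 0])
      (Matrix.of ![fun i => C (ξ i), 0]) !![0, -X; 1, 0] := by
    ext1 i j
    rcases i with i | i <;> rcases j with j | j
    · simp [axM_apply]
    · fin_cases j <;> simp [axM_apply]
    · fin_cases i <;> simp [axM_apply]
    · fin_cases i <;> fin_cases j <;> simp [axM_apply]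
  have h2 : fromBlocks 1 (Matrix.of fun i => ![0, X * C (ξ i)]) 0 1 *
      axM (fromBlocks V 0 (Matrix.of ![ξ, 0]) !![0, 0; 1, 0])
      = fromBlocks (axM V) 0 (Matrix.of ![fun i => C (ξ i), 0]) !![0, -X; 1, 0] := by
    rw [h1, fromBlocks_multiply]
    congr 1
    · ext1 i j
      simp [Matrix.mul_apply, Fin.sum_univ_two]
    · ext1 i j
      fin_cases j <;> simp [Matrix.mul_apply, Fin.sum_univ_two]
    · simp
    · simp
  have h3 := congrArg Matrix.det h2
  rw [det_mul, det_fromBlocks_zero₂₁, det_fromBlocks_zero₁₂] at h3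
  simp only [det_one, one_mul, mul_one] at h3
  rw [h3, det_fin_two]
  simp
  ring

lemma det_axM_mur_zero (x : ℤ) (V : Matrix ι ι ℤ) (M N : ι → ℤ) :
    (axM (fromBlocks !![0, 0; 1, x] (Matrix.of ![0, M]) (Matrix.of fun i => ![0, N i]) V)).det
      = X * (axM V).det := by
  have h1 : axM (fromBlocks !![0, 0; 1, x] (Matrix.of ![0, M])
      (Matrix.of fun i => ![0, N i]) V) = fromBlocks !![0, -X; 1, C x - X * C x]
      (Matrix.of ![0, fun i => C (M i) - X * C (N i)])
      (Matrix.of fun i => ![0, C (N i) - X * C (M i)]) (axM V) := by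
    ext1 i j
    rcases i with i | i <;> rcases j with j | j
    · fin_cases i <;> fin_cases j <;> simp [axM_apply]
    · fin_cases i <;> simp [axM_apply]
    · fin_cases j <;> simp [axM_apply]
    · simp [axM_apply]
  have h2 : axM (fromBlocks !![0, 0; 1, x] (Matrix.of ![0, M])
      (Matrix.of fun i => ![0, N i]) V) *
      fromBlocks 1 (Matrix.of ![fun i => -(C (M i) - X * C (N i)), 0]) 0 1
      = fromBlocks !![0, -X; 1, C x - X * C x] 0
      (Matrix.of fun i => ![0, C (N i) - X * C (M i)]) (axM V) := by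
    rw [h1, fromBlocks_multiply]
    congr 1
    · simp
    · ext1 i j
      fin_cases i <;> simp [Matrix.mul_apply, Fin.sum_univ_two]
    · simp
    · ext1 i j
      simp [Matrix.mul_apply, Fin.sum_univ_two]
  have h3 := congrArg Matrix.det h2
  rw [det_mul, det_fromBlocks_zero₂₁, det_fromBlocks_zero₁₂] at h3
  simp only [det_one, mul_one] at h3
  rw [h3, det_fin_two]
  simp

end raw

lemma alex_row (A : SqM) (ξ : A.ι → ℤ) : alex (enlR A ξ) = X * alex A := det_axM_row A.V ξ

lemma alex_col (A : SqM) (ξ : A.ι → ℤ) : alex (enlC A ξ) = X * alex A := det_axM_col A.V ξ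

lemma alex_mur_zero (x : ℤ) (A : SqM) (M N : A.ι → ℤ) : alex (mur 0 x A M N) = X * alex A :=
  det_axM_mur_zero x A.V M N

lemma alex_sum (A B : SqM) : alex (sumM A B) = alex A * alex B := by
  have h1 : axM (fromBlocks A.V 0 0 B.V) = fromBlocks (axM A.V) 0 0 (axM B.V) := by
    ext1 i j
    rcases i with i | i <;> rcases j with j | j <;> simp [axM_apply]
  have h2 : (axM (fromBlocks A.V 0 0 B.V)).det = (axM A.V).det * (axM B.V).det := by
    rw [h1, det_fromBlocks_zero₂₁]
  exact h2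

lemma alex_empty : alex emptyM = 1 := by
  unfold alex
  have : IsEmpty emptyM.ι := inferInstanceAs (IsEmpty Empty)
  exact det_isEmpty

/-- The Alexander polynomial is an S-equivalence invariant up to powers of `X`. -/
theorem alex_seq {A B : SqM} (h : SEq A B) : ∃ a b : ℕ, X ^ a * alex A = X ^ b * alex B := by
  induction h with
  | refl A => exact ⟨0, 0, rfl⟩
  | symm _ ih => obtain ⟨a, b, h⟩ := ih; exact ⟨b, a, h.symm⟩
  | trans _ _ ih1 ih2 =>
    obtain ⟨a, b, h1⟩ := ih1
    obtain ⟨c, d, h2⟩ := ih2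
    refine ⟨a + c, b + d, ?_⟩
    rw [pow_add, pow_add, mul_right_comm, h1, mul_right_comm, mul_assoc, h2]
    ring
  | congr A B P Q h1 h2 h => exact ⟨0, 0, by rw [alex_congr P Q h1 h2 h]⟩
  | row A ξ => exact ⟨1, 0, by rw [alex_row]; ring⟩
  | col A ξ => exact ⟨1, 0, by rw [alex_col]; ring⟩

theorem isSeifert_seq {A B : SqM} (h : SEq A B) : IsSeifert A ↔ IsSeifert B := by
  obtain ⟨a, b, h⟩ := alex_seq h
  have h1 := congrArg (Polynomial.eval 1) h
  simp at h1
  rw [isSeifert_iff, isSeifert_iff, h1]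

end Pool.Agent.Sym20c8
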