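import Pool.Agent.Sym20c8.Alex

/-! # The symbiont and the key determinants -/

namespace Pool.Agent.Sym20c8

open Matrix Polynomial

/-- Twisting: `V ↦ V + c u uᵀ`. -/
def tw (A : SqM) (c : ℤ) (u : A.ι → ℤ) : SqM where
  ι := A.ι
  V := A.V + c • vecMulVec u u

section field

variable {ι κ : Type} [Fintype ι] [DecidableEq ι] [Fintype κ] [DecidableEq κ]

lemma det_update {K : Type} [Field K] {r : ℕ} (A : Matrix ι ι K) (Y w : Fin r → ι → K)
    (d : Fin r → K) (h : ∀ j, A *ᵥ Y j = w j) :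
    (A + ∑ j, d j • vecMulVec (w j) (w j)).det
      = A.det * (1 + Matrix.of fun i j => d j * (w i ⬝ᵥ Y j)).det := by
  have h1 : A + ∑ j, d j • vecMulVec (w j) (w j)
      = A * (1 + (Matrix.of fun i j => Y j i * d j) * (Matrix.of fun j i => w j i)) := by
    rw [Matrix.mul_add, Matrix.mul_one]
    congr 1
    ext a b
    rw [Matrix.mul_apply, Matrix.sum_apply]
    simp only [Matrix.mul_apply, Matrix.smul_apply, vecMulVec_apply, Matrix.of_apply, smul_eq_mul]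
    simp_rw [Finset.mul_sum]
    rw [Finset.sum_comm]
    refine Finset.sum_congr rfl fun j _ => ?_
    rw [← h j]
    simp only [mulVec, dotProduct]
    rw [Finset.sum_mul, Finset.mul_sum]
    refine Finset.sum_congr rfl fun x _ => ?_
    have : (∑ i, A b i * Y j i) = w j b := by
      have := congrFun (h j) b
      simpa [mulVec, dotProduct] using this
    rw [this]
    ring
  rw [h1, det_mul, det_one_add_mul_comm]
  congr 2
  congr 1
  ext i j
  simp only [Matrix.mul_apply, Matrix.of_apply, dotProduct]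
  rw [Finset.mul_sum]
  refine Finset.sum_congr rfl fun x _ => ?_
  ring

/-- The field of fractions of `ℤ[X]`. -/
abbrev KK := FractionRing ℤ[X]

/-- the variable in the field -/
noncomputable def tt : KK := algebraMap ℤ[X] KK X

lemma tt_ne : tt ≠ 0 := by
  unfold tt
  intro h
  rw [← map_zero (algebraMap ℤ[X] KK)] at h
  exact X_ne_zero (IsFractionRing.injective ℤ[X] KK h)

/-- `V - t Vᵀ` over the field. -/
noncomputable def aK (V : Matrix ι ι ℤ) : Matrix ι ι KK :=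
  (axM V).map (algebraMap ℤ[X] KK)

lemma aK_apply (V : Matrix ι ι ℤ) (i j : ι) :
    aK V i j = (V i j : KK) - tt * (V j i : KK) := by
  simp [aK, axM_apply, tt]

lemma det_aK (V : Matrix ι ι ℤ) : (aK V).det = algebraMap ℤ[X] KK (axM V).det := by
  unfold aK
  exact (RingHom.map_det _ _).symm

lemma aK_sum (A : Matrix ι ι ℤ) (B : Matrix κ κ ℤ) :
    aK (fromBlocks A 0 0 B) = fromBlocks (aK A) 0 0 (aK B) := by
  ext1 i j
  rcases i with i | i <;> rcases j with j | j <;> simp [aK_apply]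

lemma aK_row (A : Matrix ι ι ℤ) (v : ι → ℤ) :
    aK (fromBlocks (-A) (Matrix.of fun i => ![v i, 0]) 0 !![0, 1; 0, 0])
      = fromBlocks (-aK A) (Matrix.of fun i => ![(v i : KK), 0])
        (Matrix.of ![fun i => - (tt * (v i : KK)), 0]) !![0, 1; -tt, 0] := by
  ext1 i j
  rcases i with i | i <;> rcases j with j | j
  · simp [aK_apply]; ring
  · fin_cases j <;> simp [aK_apply]
  · fin_cases i <;> simp [aK_apply]
  · fin_cases i <;> fin_cases j <;> simp [aK_apply]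

lemma aK_hyp : aK !![0, 1; 0, 0] = !![0, 1; -tt, 0] := by
  ext1 i j
  fin_cases i <;> fin_cases j <;> simp [aK_apply]

lemma aK_tw (A : Matrix ι ι ℤ) (c : ℤ) (u : ι → ℤ) :
    aK (A + c • vecMulVec u u) = aK A + ((c : KK) * (1 - tt)) •
      vecMulVec (fun i => (u i : KK)) (fun i => (u i : KK)) := by
  ext1 i j
  simp only [aK_apply, Matrix.add_apply, Matrix.smul_apply, vecMulVec_apply, smul_eq_mul]
  push_cast
  ring

/-- The matrix `T' = [[-T, v, 0], [0, 0, 1], [0, 0, 0]] ⊕ [[0, 1], [0, 0]]`. -/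
def tP (T : Matrix ι ι ℤ) (v : ι → ℤ) :
    Matrix ((ι ⊕ Fin 2) ⊕ Fin 2) ((ι ⊕ Fin 2) ⊕ Fin 2) ℤ :=
  fromBlocks (fromBlocks (-T) (Matrix.of fun i => ![v i, 0]) 0 !![0, 1; 0, 0]) 0 0
    !![0, 1; 0, 0]

/-- The twisting vector of the symbiont. -/
def uP (v : ι → ℤ) (ε k : ℤ) : (ι ⊕ Fin 2) ⊕ Fin 2 → ℤ :=
  Sum.elim (Sum.elim (fun i => -(k * v i)) ![0, k]) ![k * ε, k]

/-- The symbiont `W = T' - u uᵀ`. -/
def wP (T : Matrix ι ι ℤ) (v : ι → ℤ) (ε k : ℤ) :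
    Matrix ((ι ⊕ Fin 2) ⊕ Fin 2) ((ι ⊕ Fin 2) ⊕ Fin 2) ℤ :=
  tP T v + (-1 : ℤ) • vecMulVec (uP v ε k) (uP v ε k)

lemma det_axM_tP (T : Matrix ι ι ℤ) (v : ι → ℤ) :
    (axM (tP T v)).det = X ^ 2 * (axM (-T)).det := by
  have h1 : axM (tP T v) = fromBlocks
      (axM (fromBlocks (-T) (Matrix.of fun i => ![v i, 0]) 0 !![0, 1; 0, 0])) 0 0
      (axM !![0, 1; 0, 0]) := by
    unfold tP
    ext1 i j
    rcases i with i | i <;> rcases j with j | j <;> simp [axM_apply]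
  rw [h1, det_fromBlocks_zero₂₁, det_axM_row, det_fin_two]
  simp [axM_apply]
  ring

/-- solution vector of `aK (tP T v) y = u` -/
noncomputable def yP (v : ι → ℤ) (m : ι → KK) (ε k : ℤ) : (ι ⊕ Fin 2) ⊕ Fin 2 → KK :=
  Sum.elim (Sum.elim (fun i => (k : KK) * (1 - tt⁻¹) * m i)
    ![-(k : KK) * tt⁻¹, (k : KK) * (tt - 1) * ((fun i => (v i : KK)) ⬝ᵥ m)])
    ![-(k : KK) * tt⁻¹, (k : KK) * (ε : KK)]

lemma aK_tP_yP (T : Matrix ι ι ℤ) (v : ι → ℤ) (m : ι → KK) (ε k : ℤ)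
    (hm : aK T *ᵥ m = fun i => (v i : KK)) :
    aK (tP T v) *ᵥ yP v m ε k = fun i => (uP v ε k i : KK) := by
  have ht := tt_ne
  unfold tP
  rw [aK_sum, aK_row, aK_hyp, fromBlocks_mulVec]
  have e1 : yP v m ε k ∘ Sum.inl = Sum.elim (fun i => (k : KK) * (1 - tt⁻¹) * m i)
    ![-(k : KK) * tt⁻¹, (k : KK) * (tt - 1) * ((fun i => (v i : KK)) ⬝ᵥ m)] := rfl
  have e2 : yP v m ε k ∘ Sum.inr = ![-(k : KK) * tt⁻¹, (k : KK) * (ε : KK)] := rfl
  rw [e1, e2, fromBlocks_mulVec]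
  ext i
  rcases i with (i | i) | i
  · have h1 := congrFun hm i
    simp only [mulVec, dotProduct] at h1
    simp only [Sum.elim_inl, Sum.elim_inr, Pi.add_apply, uP, mulVec, dotProduct, Fin.sum_univ_two,
      Function.comp_def, Matrix.neg_apply, Matrix.of_apply, Matrix.cons_val_zero,
      Matrix.cons_val_one, Matrix.zero_apply]
    have h2 : ∑ x, -aK T i x * ((k : KK) * (1 - tt⁻¹) * m x)
        = -((k : KK) * (1 - tt⁻¹)) * (v i : KK) := by
      rw [← h1, Finset.mul_sum]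
      exact Finset.sum_congr rfl fun x _ => by ring
    rw [h2]
    push_cast
    simp
    ring
  · simp only [Sum.elim_inl, Sum.elim_inr, Pi.add_apply, uP, mulVec, dotProduct, Fin.sum_univ_two,
      Matrix.zero_apply]
    have h2 : ∑ x, tt * (v x : KK) * ((k : KK) * (1 - tt⁻¹) * m x)
        = (k : KK) * (tt - 1) * ∑ x, (v x : KK) * m x := by
      rw [Finset.mul_sum]
      refine Finset.sum_congr rfl fun x _ => ?_
      field_simp
    fin_cases i
    · simp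
      rw [h2]
      ring
    · simp
      field_simp
  · simp only [Sum.elim_inl, Sum.elim_inr, Pi.add_apply, uP, mulVec, dotProduct, Fin.sum_univ_two,
      Matrix.zero_apply]
    fin_cases i
    · simp
    · simp
      field_simp

lemma uP_dot_yP (v : ι → ℤ) (m : ι → KK) (ε k : ℤ) :
    (fun i => (uP v ε k i : KK)) ⬝ᵥ yP v m ε k = (k : KK) ^ 2 *
      ((tt + tt⁻¹ - 2) * ((fun i => (v i : KK)) ⬝ᵥ m) + (ε : KK) * (1 - tt⁻¹)) := by
  simp only [dotProduct, Fintype.sum_sum_type, uP, yP, Sum.elim_inl, Sum.elim_inr,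
    Fin.sum_univ_two, Matrix.cons_val_zero, Matrix.cons_val_one]
  have h2 : ∑ x, (((-(k * v x) : ℤ)) : KK) * ((k : KK) * (1 - tt⁻¹) * m x)
        = -((k : KK) ^ 2 * (1 - tt⁻¹)) * ∑ x, (v x : KK) * m x := by
    rw [Finset.mul_sum]
    refine Finset.sum_congr rfl fun x _ => ?_
    push_cast
    ring
  rw [h2]
  push_cast
  ring

lemma det_aK_V (T : Matrix ι ι ℤ) (v : ι → ℤ) (m : ι → KK) (ε : ℤ)
    (hm : aK T *ᵥ m = fun i => (v i : KK)) :
    (aK (T + (-ε) • vecMulVec v v)).det = (aK T).det *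
      (1 - (ε : KK) * (1 - tt) * ((fun i => (v i : KK)) ⬝ᵥ m)) := by
  have h := det_update (aK T) ![m] ![fun i => (v i : KK)] ![-((ε : KK) * (1 - tt))]
    (by intro j; fin_cases j; simpa using hm)
  rw [aK_tw]
  simp only [Fin.sum_univ_one, Matrix.cons_val_zero, det_fin_one] at h
  have e : (((-ε : ℤ) : KK) * (1 - tt)) = -((ε : KK) * (1 - tt)) := by push_cast; ring
  rw [e, h]
  simp
  left
  ring

lemma det_aK_W (T : Matrix ι ι ℤ) (v : ι → ℤ) (m : ι → KK) (ε k : ℤ)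
    (hm : aK T *ᵥ m = fun i => (v i : KK)) :
    (aK (wP T v ε k)).det = (aK (tP T v)).det * (1 - (1 - tt) * ((k : KK) ^ 2 *
      ((tt + tt⁻¹ - 2) * ((fun i => (v i : KK)) ⬝ᵥ m) + (ε : KK) * (1 - tt⁻¹)))) := by
  have h := det_update (aK (tP T v)) ![yP v m ε k] ![fun i => (uP v ε k i : KK)] ![-(1 - tt)]
    (by intro j; fin_cases j; simpa using aK_tP_yP T v m ε k hm)
  unfold wP
  rw [aK_tw]
  simp only [Fin.sum_univ_one, Matrix.cons_val_zero, det_fin_one] at h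
  have e : (((-1 : ℤ) : KK) * (1 - tt)) = -(1 - tt) := by push_cast; ring
  rw [e, h]
  simp only [Matrix.add_apply, Matrix.one_apply_eq, Matrix.of_apply, Matrix.cons_val_zero,
    uP_dot_yP]
  ring

/-- the last twisting vector -/
def zP (v : ι → ℤ) : ι ⊕ ((ι ⊕ Fin 2) ⊕ Fin 2) → ℤ :=
  Sum.elim v (Sum.elim 0 ![1, 0])

lemma det_aK_Z (T : Matrix ι ι ℤ) (v : ι → ℤ) (m : ι → KK) (ε k : ℤ) (hε : ε * ε = 1)
    (hm : aK T *ᵥ m = fun i => (v i : KK)) :
    (aK (fromBlocks (T + (-ε) • vecMulVec v v) 0 0 (wP T v ε k)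
      + ε • vecMulVec (zP v) (zP v))).det = (aK T).det * (aK (tP T v)).det := by
  have ht := tt_ne
  have hε' : (ε : KK) * (ε : KK) = 1 := by exact_mod_cast congrArg (Int.cast : ℤ → KK) hε
  have e1 : fromBlocks (T + (-ε) • vecMulVec v v) 0 0 (wP T v ε k)
      + ε • vecMulVec (zP v) (zP v)
      = fromBlocks T 0 0 (tP T v) + (-ε) • vecMulVec (Sum.elim v 0) (Sum.elim v 0)
        + (-1 : ℤ) • vecMulVec (Sum.elim 0 (uP v ε k)) (Sum.elim 0 (uP v ε k))
        + ε • vecMulVec (zP v) (zP v) := by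
    congr 1
    ext i j
    rcases i with i | i <;> rcases j with j | j <;>
      simp only [wP, Matrix.add_apply, Matrix.smul_apply, fromBlocks_apply₁₁, fromBlocks_apply₁₂,
        fromBlocks_apply₂₁, fromBlocks_apply₂₂, vecMulVec_apply, Sum.elim_inl, Sum.elim_inr,
        Pi.zero_apply, smul_eq_mul, Matrix.zero_apply] <;> ring
  have e2 : (((-ε : ℤ) : KK) * (1 - tt)) = -((ε : KK) * (1 - tt)) := by push_cast; ring
  have e3 : (((-1 : ℤ) : KK) * (1 - tt)) = -(1 - tt) := by push_cast; ring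
  rw [e1, aK_tw, aK_tw, aK_tw, aK_sum, e2, e3]
  set A := fromBlocks (aK T) 0 0 (aK (tP T v)) with hA
  set w1 : ι ⊕ ((ι ⊕ Fin 2) ⊕ Fin 2) → KK := fun i => ((Sum.elim v 0 i : ℤ) : KK) with hw1
  set w2 : ι ⊕ ((ι ⊕ Fin 2) ⊕ Fin 2) → KK := fun i => ((Sum.elim 0 (uP v ε k) i : ℤ) : KK) with hw2
  set w3 : ι ⊕ ((ι ⊕ Fin 2) ⊕ Fin 2) → KK := fun i => ((zP v i : ℤ) : KK) with hw3
  have f1 : w1 = Sum.elim (fun i => (v i : KK)) (0 : (ι ⊕ Fin 2) ⊕ Fin 2 → KK) := by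
    ext i; rcases i with i | i <;> simp [hw1]
  have f2 : w2 = Sum.elim (0 : ι → KK) (fun i => (uP v ε k i : KK)) := by
    ext i; rcases i with i | i <;> simp [hw2]
  have f3 : w3 = Sum.elim (fun i => (v i : KK)) (Sum.elim (0 : ι ⊕ Fin 2 → KK) ![1, 0]) := by
    ext i
    rcases i with i | i | i
    · simp [hw3, zP]
    · simp [hw3, zP]
    · fin_cases i <;> simp [hw3, zP]
  have g1 : A *ᵥ (Sum.elim m (0 : (ι ⊕ Fin 2) ⊕ Fin 2 → KK)) = w1 := by
    rw [hA, fromBlocks_mulVec, f1]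
    ext i; rcases i with i | i
    · simpa using congrFun hm i
    · simp
  have g2 : A *ᵥ (Sum.elim (0 : ι → KK) (yP v m ε k)) = w2 := by
    rw [hA, fromBlocks_mulVec, f2]
    ext i; rcases i with i | i
    · simp
    · simpa using congrFun (aK_tP_yP T v m ε k hm) i
  have g3 : A *ᵥ (Sum.elim m (Sum.elim (0 : ι ⊕ Fin 2 → KK) ![0, 1])) = w3 := by
    have h0 : aK (tP T v) *ᵥ (Sum.elim (0 : ι ⊕ Fin 2 → KK) ![0, 1])
        = Sum.elim (0 : ι ⊕ Fin 2 → KK) ![1, 0] := by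
      unfold tP
      rw [aK_sum, aK_hyp, fromBlocks_mulVec]
      ext i
      rcases i with i | i
      · simp
      · fin_cases i <;> simp [mulVec, dotProduct, Fin.sum_univ_two]
    rw [hA, fromBlocks_mulVec, f3]
    ext i; rcases i with i | i
    · simpa using congrFun hm i
    · simpa using congrFun h0 i
  have h := det_update A ![Sum.elim m (0 : (ι ⊕ Fin 2) ⊕ Fin 2 → KK),
    Sum.elim (0 : ι → KK) (yP v m ε k), Sum.elim m (Sum.elim (0 : ι ⊕ Fin 2 → KK) ![0, 1])]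
    ![w1, w2, w3] ![-((ε : KK) * (1 - tt)), -(1 - tt), (ε : KK) * (1 - tt)]
    (by intro j; fin_cases j <;> [exact g1; exact g2; exact g3])
  have h' : A + -((ε : KK) * (1 - tt)) • vecMulVec w1 w1 + -(1 - tt) • vecMulVec w2 w2
      + ((ε : KK) * (1 - tt)) • vecMulVec w3 w3
      = A + ∑ j : Fin 3, (![-((ε : KK) * (1 - tt)), -(1 - tt), (ε : KK) * (1 - tt)] : Fin 3 → KK) j
        • vecMulVec ((![w1, w2, w3] : Fin 3 → _) j) ((![w1, w2, w3] : Fin 3 → _) j) := by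
    rw [Fin.sum_univ_three]
    simp only [Matrix.cons_val_zero, Matrix.cons_val_one, Matrix.cons_val_two, Matrix.head_cons,
      Matrix.tail_cons, Matrix.cons_val]
    abel
  rw [h', h, hA, det_fromBlocks_zero₂₁]
  have d11 : w1 ⬝ᵥ (Sum.elim m (0 : (ι ⊕ Fin 2) ⊕ Fin 2 → KK)) = (fun i => (v i : KK)) ⬝ᵥ m := by
    rw [f1]; simp [dotProduct]
  have d12 : w1 ⬝ᵥ (Sum.elim (0 : ι → KK) (yP v m ε k)) = 0 := by
    rw [f1]; simp [dotProduct]
  have d13 : w1 ⬝ᵥ (Sum.elim m (Sum.elim (0 : ι ⊕ Fin 2 → KK) ![0, 1])) = (fun i => (v i : KK)) ⬝ᵥ m := by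
    rw [f1]; simp [dotProduct]
  have d21 : w2 ⬝ᵥ (Sum.elim m (0 : (ι ⊕ Fin 2) ⊕ Fin 2 → KK)) = 0 := by
    rw [f2]; simp [dotProduct]
  have d22 : w2 ⬝ᵥ (Sum.elim (0 : ι → KK) (yP v m ε k)) = (k : KK) ^ 2 *
      ((tt + tt⁻¹ - 2) * ((fun i => (v i : KK)) ⬝ᵥ m) + (ε : KK) * (1 - tt⁻¹)) := by
    rw [← uP_dot_yP, f2]; simp [dotProduct]
  have d23 : w2 ⬝ᵥ (Sum.elim m (Sum.elim (0 : ι ⊕ Fin 2 → KK) ![0, 1])) = (k : KK) := by
    rw [f2]; simp [dotProduct, uP]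
  have d31 : w3 ⬝ᵥ (Sum.elim m (0 : (ι ⊕ Fin 2) ⊕ Fin 2 → KK)) = (fun i => (v i : KK)) ⬝ᵥ m := by
    rw [f3]; simp [dotProduct]
  have d32 : w3 ⬝ᵥ (Sum.elim (0 : ι → KK) (yP v m ε k)) = -(k : KK) * tt⁻¹ := by
    rw [f3]; simp [dotProduct, yP]
  have d33 : w3 ⬝ᵥ (Sum.elim m (Sum.elim (0 : ι ⊕ Fin 2 → KK) ![0, 1])) = (fun i => (v i : KK)) ⬝ᵥ m := by
    rw [f3]; simp [dotProduct]
  rw [det_fin_three]
  simp only [Matrix.add_apply, Matrix.one_apply, Matrix.of_apply, Matrix.cons_val_zero,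
    Matrix.cons_val_one, Matrix.cons_val_two, Matrix.head_cons, Matrix.tail_cons, Matrix.cons_val,
    d11, d12, d13, d21, d22, d23, d31, d32, d33]
  set μ := (fun i => (v i : KK)) ⬝ᵥ m with hμ
  have hts : tt * tt⁻¹ = 1 := mul_inv_cancel₀ ht
  simp only [Fin.isValue, if_true, reduceIte, show (0 : Fin 3) ≠ 1 by decide,
    show (0 : Fin 3) ≠ 2 by decide, show (1 : Fin 3) ≠ 0 by decide, show (1 : Fin 3) ≠ 2 by decide,
    show (2 : Fin 3) ≠ 0 by decide, show (2 : Fin 3) ≠ 1 by decide, if_false]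
  linear_combination (aK T).det * (aK (tP T v)).det * (((1 - tt) * (k : KK) ^ 2 * (ε : KK)
    - (1 - tt) * (k : KK) ^ 2 * μ * (2 - tt)) * hts
    + ((1 - tt) ^ 3 * (k : KK) ^ 2 * μ * tt⁻¹) * hε')

end field

end Pool.Agent.Sym20c8
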