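import Mathlib

/-!
# Seifert matrices, S-equivalence, the algebraic unknotting number

Square integer matrices (indexed by an arbitrary finite type), S-equivalence, the algebraic
unknotting operation of Murakami and the algebraic unknotting number.
-/

namespace Pool.Agent.Sym20c8

open Matrix

/-- A square integer matrix with rows and columns indexed by a finite type. -/
structure SqM : Type 1 where
  /-- the index type -/
  ι : Type
  [ft : Fintype ι]
  [de : DecidableEq ι]
  /-- the matrix -/
  V : Matrix ι ι ℤ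

attribute [instance] SqM.ft SqM.de

/-- `A` is a Seifert matrix (of a knot): `det (V - Vᵀ) = 1`. -/
def IsSeifert (A : SqM) : Prop := (A.V - A.Vᵀ).det = 1

/-- The empty matrix, the Seifert matrix of the disc bounded by the unknot. -/
def emptyM : SqM where
  ι := Empty
  V := 0

/-- Block sum `V ⊕ W` (Seifert matrix of a connected sum). -/
def sumM (A B : SqM) : SqM where
  ι := A.ι ⊕ B.ι
  V := fromBlocks A.V 0 0 B.V

/-- Row enlargement `[[V, ξ, 0], [0, 0, 1], [0, 0, 0]]`. -/
def enlR (A : SqM) (ξ : A.ι → ℤ) : SqM where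
  ι := A.ι ⊕ Fin 2
  V := fromBlocks A.V (Matrix.of fun i => ![ξ i, 0]) 0 !![0, 1; 0, 0]

/-- Column enlargement `[[V, 0, 0], [ξ, 0, 0], [0, 1, 0]]`. -/
def enlC (A : SqM) (ξ : A.ι → ℤ) : SqM where
  ι := A.ι ⊕ Fin 2
  V := fromBlocks A.V 0 (Matrix.of ![ξ, 0]) !![0, 0; 1, 0]

/-- S-equivalence: the equivalence relation generated by congruences `V ↦ P V Pᵀ` with `P`
invertible over `ℤ` and by the two kinds of enlargements. -/
inductive SEq : SqM → SqM → Prop
  | refl (A : SqM) : SEq A A
  | symm {A B : SqM} : SEq A B → SEq B A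
  | trans {A B C : SqM} : SEq A B → SEq B C → SEq A C
  | congr (A B : SqM) (P : Matrix B.ι A.ι ℤ) (Q : Matrix A.ι B.ι ℤ) (hPQ : P * Q = 1)
      (hQP : Q * P = 1) (h : B.V = P * A.V * Pᵀ) : SEq A B
  | row (A : SqM) (ξ : A.ι → ℤ) : SEq A (enlR A ξ)
  | col (A : SqM) (ξ : A.ι → ℤ) : SEq A (enlC A ξ)

/-- Murakami's algebraic unknotting operation: `[[ε, 0, 0], [1, x, M], [0, N, V]]`. -/
def mur (ε x : ℤ) (A : SqM) (M N : A.ι → ℤ) : SqM where
  ι := Fin 2 ⊕ A.ι
  V := fromBlocks !![ε, 0; 1, x] (Matrix.of ![0, M]) (Matrix.of fun i => ![0, N i]) A.V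

/-- `Unknots n A`: `A` can be turned into the empty matrix by `n` algebraic unknotting
operations, with S-equivalences allowed in between. -/
def Unknots : ℕ → SqM → Prop
  | 0, A => SEq A emptyM
  | n + 1, A => ∃ (ε x : ℤ) (B : SqM) (M N : B.ι → ℤ),
      (ε = 1 ∨ ε = -1) ∧ SEq A (mur ε x B M N) ∧ Unknots n B

/-- `HasUa A n`: the algebraic unknotting number of `A` is `n`, that is, `n` is the least
number of algebraic unknotting operations that turn `A` into the empty matrix. -/
def HasUa (A : SqM) (n : ℕ) : Prop := IsLeast {m | Unknots m A} n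

end Pool.Agent.Sym20c8
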