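import Pool.Agent.Sym20c8.Lattice
import Pool.Agent.Sym20c8.Calc

/-! # S-equivalence calculus, Trotter's theorem, finiteness -/

namespace Pool.Agent.Sym20c8

open Matrix Polynomial

/-- Renumbering is an S-equivalence. -/
lemma seq_equiv (A B : SqM) (e : A.ι ≃ B.ι) (h : ∀ i j, B.V (e i) (e j) = A.V i j) : SEq A B := by
  have h1 : (1 : Matrix A.ι A.ι ℤ).submatrix e.symm id * (1 : Matrix A.ι A.ι ℤ).submatrix id e.symm
      = (1 : Matrix B.ι B.ι ℤ) := by
    ext i j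
    simp [Matrix.mul_apply, Matrix.one_apply]
  have h2 : (1 : Matrix A.ι A.ι ℤ).submatrix id e.symm * (1 : Matrix A.ι A.ι ℤ).submatrix e.symm id
      = (1 : Matrix A.ι A.ι ℤ) := by
    rw [Matrix.submatrix_mul_equiv, Matrix.mul_one, Matrix.submatrix_id_id]
  refine SEq.congr A B ((1 : Matrix A.ι A.ι ℤ).submatrix e.symm id)
    ((1 : Matrix A.ι A.ι ℤ).submatrix id e.symm) h1 h2 ?_
  ext i j
  have := h (e.symm i) (e.symm j)
  simp only [Equiv.apply_symm_apply] at this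
  rw [this]
  simp [Matrix.mul_apply, Matrix.one_apply]

lemma unknots_seq {n : ℕ} {A B : SqM} (h : SEq A B) (hB : Unknots n B) : Unknots n A := by
  cases n with
  | zero => exact h.trans hB
  | succ n =>
    obtain ⟨ε, x, C, M, N, hε, h1, h2⟩ := hB
    exact ⟨ε, x, C, M, N, hε, h.trans h1, h2⟩

section raw

variable {ι : Type} [Fintype ι] [DecidableEq ι]

lemma raw_PQ (ε : ℤ) (v : ι → ℤ) :
    (fromBlocks (Matrix.of fun i => ![v i, -(ε * v i)]) 1 !![1, -ε; 0, 1] 0 :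
      Matrix (ι ⊕ Fin 2) (Fin 2 ⊕ ι) ℤ)
    * (fromBlocks 0 !![1, ε; 0, 1] 1 (Matrix.of fun i => ![-(v i), 0]) :
      Matrix (Fin 2 ⊕ ι) (ι ⊕ Fin 2) ℤ) = 1 := by
  rw [fromBlocks_multiply, ← fromBlocks_one]
  congr 1
  · simp
  · ext1 i j
    fin_cases j <;> simp [Matrix.mul_apply, Fin.sum_univ_two] <;> ring
  · simp
  · ext1 i j
    fin_cases i <;> fin_cases j <;> simp [Matrix.mul_apply, Fin.sum_univ_two]

lemma raw_QP (ε : ℤ) (v : ι → ℤ) :
    (fromBlocks 0 !![1, ε; 0, 1] 1 (Matrix.of fun i => ![-(v i), 0]) :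
      Matrix (Fin 2 ⊕ ι) (ι ⊕ Fin 2) ℤ) *
    (fromBlocks (Matrix.of fun i => ![v i, -(ε * v i)]) 1 !![1, -ε; 0, 1] 0 :
      Matrix (ι ⊕ Fin 2) (Fin 2 ⊕ ι) ℤ) = 1 := by
  rw [fromBlocks_multiply, ← fromBlocks_one]
  congr 1
  · ext1 i j
    fin_cases i <;> fin_cases j <;> simp [Matrix.mul_apply, Fin.sum_univ_two]
  · simp
  · ext1 i j
    fin_cases j <;> simp [Matrix.mul_apply, Fin.sum_univ_two] <;> ring
  · simp

lemma raw_tw (B : Matrix ι ι ℤ) (ε : ℤ) (hε : ε * ε = 1) (v : ι → ℤ) :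
    fromBlocks (B + ε • vecMulVec v v) 0 (Matrix.of ![fun i => ε * v i, 0]) !![0, 0; 1, 0]
    = (fromBlocks (Matrix.of fun i => ![v i, -(ε * v i)]) 1 !![1, -ε; 0, 1] 0 :
      Matrix (ι ⊕ Fin 2) (Fin 2 ⊕ ι) ℤ)
      * fromBlocks !![ε, 0; 1, 0] (Matrix.of ![0, -v]) (Matrix.of fun i => ![0, (0 : ι → ℤ) i]) B
      * (fromBlocks (Matrix.of fun i => ![v i, -(ε * v i)]) 1 !![1, -ε; 0, 1] 0 :
      Matrix (ι ⊕ Fin 2) (Fin 2 ⊕ ι) ℤ)ᵀ := by
  have h1 : (fromBlocks (Matrix.of fun i => ![v i, -(ε * v i)]) 1 !![1, -ε; 0, 1] 0 :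
      Matrix (ι ⊕ Fin 2) (Fin 2 ⊕ ι) ℤ)
      * fromBlocks !![ε, 0; 1, 0] (Matrix.of ![0, -v]) (Matrix.of fun i => ![0, (0 : ι → ℤ) i]) B
      = fromBlocks 0 (B + ε • vecMulVec v v) !![0, 0; 1, 0]
        (Matrix.of ![fun i => ε * v i, fun i => -(v i)]) := by
    rw [fromBlocks_multiply]
    congr 1
    · ext1 i j
      fin_cases j <;> simp [Matrix.mul_apply, Fin.sum_univ_two] <;> ring
    · ext1 i j
      simp only [Matrix.add_apply, Matrix.mul_apply, Fin.sum_univ_two, Matrix.of_apply,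
        Matrix.cons_val_zero, Matrix.cons_val_one, Matrix.smul_apply, vecMulVec_apply,
        Pi.zero_apply, Pi.neg_apply, Matrix.one_mul, smul_eq_mul, Matrix.one_apply, ite_mul,
        one_mul, zero_mul, Finset.sum_ite_eq, Finset.mem_univ, if_true]
      ring
    · ext1 i j
      fin_cases i <;> fin_cases j <;> simp [Matrix.mul_apply, Fin.sum_univ_two]
    · ext1 i j
      fin_cases i <;> simp [Matrix.mul_apply, Fin.sum_univ_two]
  rw [h1, fromBlocks_transpose, fromBlocks_multiply]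
  congr 1
  · simp
  · simp
  · rw [Matrix.transpose_one, Matrix.mul_one]
    ext1 i j
    simp only [Matrix.add_apply, Matrix.mul_apply, Matrix.transpose_apply, Fin.sum_univ_two]
    fin_cases i <;> simp
  · ext1 i j
    simp only [Matrix.add_apply, Matrix.mul_apply, Matrix.transpose_apply, Fin.sum_univ_two]
    fin_cases i <;> fin_cases j <;> simp

end raw

/-- The operation with `x = 0`, `N = 0`, `M = -v` is the twist `V ↦ V + ε v vᵀ`. -/
lemma tw_seq_mur (B : SqM) (ε : ℤ) (hε : ε * ε = 1) (v : B.ι → ℤ) :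
    SEq (tw B ε v) (mur ε 0 B (-v) 0) := by
  refine (SEq.col (tw B ε v) (fun i => ε * v i)).trans (SEq.symm ?_)
  exact SEq.congr (mur ε 0 B (-v) 0) (enlC (tw B ε v) (fun i => ε * v i))
    (fromBlocks (Matrix.of fun i => ![v i, -(ε * v i)]) (1 : Matrix B.ι B.ι ℤ) !![1, -ε; 0, 1] 0)
    (fromBlocks 0 !![1, ε; 0, 1] (1 : Matrix B.ι B.ι ℤ) (Matrix.of fun i => ![-(v i), 0]))
    (raw_PQ ε v) (raw_QP ε v) (raw_tw B.V ε hε v)

lemma mur_eq_tw (ε x : ℤ) (B : SqM) (M N : B.ι → ℤ) :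
    mur ε x B M N = tw (mur 0 x B M N) ε (Sum.elim ![1, 0] 0) := by
  have h : (fromBlocks !![ε, 0; 1, x] (Matrix.of ![0, M]) (Matrix.of fun i => ![0, N i]) B.V :
      Matrix (Fin 2 ⊕ B.ι) (Fin 2 ⊕ B.ι) ℤ)
      = fromBlocks !![0, 0; 1, x] (Matrix.of ![0, M]) (Matrix.of fun i => ![0, N i]) B.V
        + ε • vecMulVec (Sum.elim ![1, 0] 0) (Sum.elim ![1, 0] 0) := by
    ext i j
    rw [Matrix.add_apply, Matrix.smul_apply, vecMulVec_apply, smul_eq_mul]
    rcases i with i | i <;> rcases j with j | j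
    · fin_cases i <;> fin_cases j <;> simp
    · fin_cases i <;> simp
    · fin_cases j <;> simp
    · simp
  unfold mur tw
  simp only
  rw [h]

lemma tw_tw (A : SqM) (c : ℤ) (u : A.ι → ℤ) : tw (tw A c u) (-c) u = A := by
  have h : A.V + c • vecMulVec u u + (-c) • vecMulVec u u = A.V := by
    rw [add_assoc, ← add_smul, add_neg_cancel, zero_smul, add_zero]
  unfold tw
  simp only
  rw [h]

/-- Undoing a twist costs one operation. -/
lemma unknots_tw {n : ℕ} (A : SqM) (c : ℤ) (hc : c = 1 ∨ c = -1) (u : A.ι → ℤ)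
    (h : Unknots n (tw A c u)) : Unknots (n + 1) A := by
  refine ⟨-c, 0, tw A c u, -u, 0, ?_, ?_, h⟩
  · rcases hc with rfl | rfl <;> simp
  · have h1 := tw_seq_mur (tw A c u) (-c) (by rcases hc with rfl | rfl <;> simp) u
    rw [tw_tw] at h1
    exact h1

end Pool.Agent.Sym20c8
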