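import Pool.Agent.Sym20c8.Alex

/-! # Trotter's reduction of a singular Seifert matrix -/

namespace Pool.Agent.Sym20c8

open Matrix Polynomial

section raw

variable {ι : Type} [Fintype ι] [DecidableEq ι]

/-- A nonzero integer vector is a multiple of a vector with coprime entries. -/
lemma exists_coprime (x : ι → ℤ) (hx : x ≠ 0) :
    ∃ (d : ℤ) (x' c : ι → ℤ), d ≠ 0 ∧ (∀ i, x i = d * x' i) ∧ x' ⬝ᵥ c = 1 := by
  obtain ⟨d, hd⟩ := (IsPrincipalIdealRing.principal (Ideal.span (Set.range x))).principal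
  have hd' : Ideal.span (Set.range x) = Ideal.span {d} := hd
  have h1 : ∀ i, ∃ y, x i = d * y := by
    intro i
    have : x i ∈ Ideal.span (Set.range x) := Ideal.subset_span ⟨i, rfl⟩
    rw [hd', Ideal.mem_span_singleton'] at this
    obtain ⟨a, ha⟩ := this
    exact ⟨a, by rw [← ha]; ring⟩
  choose x' hx' using h1
  have h2 : d ∈ Ideal.span (Set.range x) := by rw [hd']; exact Ideal.mem_span_singleton_self d
  rw [Ideal.mem_span_range_iff_exists_fun] at h2
  obtain ⟨c, hc⟩ := h2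
  have hd0 : d ≠ 0 := by
    rintro rfl
    apply hx
    ext i
    rw [hx' i]; simp
  refine ⟨d, x', c, hd0, hx', ?_⟩
  have : d * (x' ⬝ᵥ c) = d * 1 := by
    rw [mul_one]
    conv_rhs => rw [← hc]
    simp only [dotProduct]
    rw [Finset.mul_sum]
    exact Finset.sum_congr rfl fun i _ => by rw [hx' i]; ring
  exact mul_left_cancel₀ hd0 this

/-- The decomposition of the lattice adapted to `x`, `y`. -/
lemma exists_decomp (V : Matrix ι ι ℤ) (x y : ι → ℤ) (hx : x ᵥ* V = 0)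
    (hyx : y ⬝ᵥ (V *ᵥ x) = 1) (hyy : y ⬝ᵥ (V *ᵥ y) = 0) :
    ∃ (m : ℕ) (P : Matrix (Fin m ⊕ Fin 2) ι ℤ) (Q : Matrix ι (Fin m ⊕ Fin 2) ℤ)
      (U : Matrix (Fin m) (Fin m) ℤ) (ξ : Fin m → ℤ), m + 2 = Fintype.card ι ∧
      P * Q = 1 ∧ Q * P = 1 ∧
      fromBlocks U (Matrix.of fun i => ![ξ i, 0]) 0 !![0, 1; 0, 0] = P * V * Pᵀ := by
  have hxw : ∀ w : ι → ℤ, x ⬝ᵥ (V *ᵥ w) = 0 := by
    intro w
    rw [dotProduct_mulVec, hx, zero_dotProduct]
  let N : Submodule ℤ (ι → ℤ) :=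
    { carrier := {z | z ⬝ᵥ (V *ᵥ x) = 0 ∧ y ⬝ᵥ (V *ᵥ z) = 0}
      add_mem' := by
        rintro a b ⟨h1, h2⟩ ⟨h3, h4⟩
        refine ⟨?_, ?_⟩
        · rw [add_dotProduct, h1, h3, add_zero]
        · rw [mulVec_add, dotProduct_add, h2, h4, add_zero]
      zero_mem' := by simp
      smul_mem' := by
        rintro c a ⟨h1, h2⟩
        refine ⟨?_, ?_⟩
        · rw [smul_dotProduct, h1, smul_zero]
        · rw [mulVec_smul, dotProduct_smul, h2, smul_zero] }
  have hN : ∀ z : ι → ℤ, z ∈ N ↔ z ⬝ᵥ (V *ᵥ x) = 0 ∧ y ⬝ᵥ (V *ᵥ z) = 0 := fun z => Iff.rfl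
  let e : (N × (Fin 2 → ℤ)) ≃ₗ[ℤ] (ι → ℤ) :=
    { toFun := fun p => (p.1 : ι → ℤ) + p.2 0 • y + p.2 1 • x
      map_add' := by
        intro p q
        simp only [Prod.fst_add, Prod.snd_add, Submodule.coe_add, Pi.add_apply, add_smul]
        abel
      map_smul' := by
        intro c p
        simp only [Prod.smul_fst, Prod.smul_snd, Submodule.coe_smul, Pi.smul_apply, smul_add,
          smul_smul, RingHom.id_apply, smul_eq_mul]
      invFun := fun w => (⟨w - (w ⬝ᵥ (V *ᵥ x)) • y - (y ⬝ᵥ (V *ᵥ w)) • x, by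
        rw [hN]
        refine ⟨?_, ?_⟩
        · simp only [sub_dotProduct, smul_dotProduct, hyx, hxw, smul_eq_mul]
          ring
        · simp only [mulVec_sub, mulVec_smul, dotProduct_sub, dotProduct_smul, hyx, hyy,
            smul_eq_mul]
          ring⟩, ![w ⬝ᵥ (V *ᵥ x), y ⬝ᵥ (V *ᵥ w)])
      left_inv := by
        rintro ⟨⟨z, hz⟩, a⟩
        rw [hN] at hz
        obtain ⟨h1, h2⟩ := hz
        have e1 : (z + a 0 • y + a 1 • x) ⬝ᵥ (V *ᵥ x) = a 0 := by
          simp only [add_dotProduct, smul_dotProduct, h1, hyx, hxw, smul_eq_mul]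
          ring
        have e2 : y ⬝ᵥ (V *ᵥ (z + a 0 • y + a 1 • x)) = a 1 := by
          simp only [mulVec_add, mulVec_smul, dotProduct_add, dotProduct_smul, h2, hyx, hyy,
            smul_eq_mul]
          ring
        ext i
        · simp only [e1, e2]
          simp
          ring
        · fin_cases i
          · simpa using e1
          · simpa using e2
      right_inv := by
        intro w
        simp
        ring }
  let b := (Module.finBasis ℤ N).prod (Pi.basisFun ℤ (Fin 2))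
  let b' := b.map e
  have hb1 : ∀ i, b' (Sum.inl i) = ((Module.finBasis ℤ N i : N) : ι → ℤ) := by
    intro i
    simp [b', b, e]
  have hb2 : b' (Sum.inr 0) = y := by
    simp [b', b, e]
  have hb3 : b' (Sum.inr 1) = x := by
    simp [b', b, e]
  let P : Matrix (Fin (Module.finrank ℤ N) ⊕ Fin 2) ι ℤ := Matrix.of fun k j => b' k j
  have hP : P = ((Pi.basisFun ℤ ι).toMatrix b')ᵀ := by
    ext k j
    simp [P, Module.Basis.toMatrix_apply]
  let Q : Matrix ι (Fin (Module.finrank ℤ N) ⊕ Fin 2) ℤ := (b'.toMatrix (Pi.basisFun ℤ ι))ᵀ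
  refine ⟨Module.finrank ℤ N, P, Q, Matrix.of fun i j => b' (Sum.inl i) ⬝ᵥ
    (V *ᵥ b' (Sum.inl j)), fun i => b' (Sum.inl i) ⬝ᵥ (V *ᵥ y), ?_, ?_, ?_, ?_⟩
  · have h1 := Module.finrank_eq_card_basis b'
    have h2 := Module.finrank_eq_card_basis (Pi.basisFun ℤ ι)
    rw [h1] at h2
    simpa using h2
  · rw [hP, ← Matrix.transpose_mul, Module.Basis.toMatrix_mul_toMatrix_flip,
      Matrix.transpose_one]
  · rw [hP, ← Matrix.transpose_mul, Module.Basis.toMatrix_mul_toMatrix_flip,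
      Matrix.transpose_one]
  · have hent : ∀ k l, (P * V * Pᵀ) k l = b' k ⬝ᵥ (V *ᵥ b' l) := by
      intro k l
      rw [Matrix.mul_assoc, Matrix.mul_apply]
      rfl
    ext1 k l
    rw [hent]
    rcases k with i | i <;> rcases l with j | j
    · rfl
    · fin_cases j
      · simp [hb2]
      · have h := ((hN _).1 (Module.finBasis ℤ N i).2).1
        simp only [Fin.mk_one, Fin.isValue, hb3, hb1]
        rw [h]
        simp
    · fin_cases i
      · have h := ((hN _).1 (Module.finBasis ℤ N j).2).2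
        simp only [Fin.zero_eta, Fin.isValue, hb2, hb1]
        rw [h]
        simp
      · simp [hb3, hxw]
    · fin_cases i <;> fin_cases j
      · simp [hb2, hyy]
      · simp [hb2, hb3, hyx]
      · simp [hb3, hxw]
      · simp [hb3, hxw]

end raw

/-- Trotter's reduction: a Seifert matrix with a nonzero row kernel vector is S-equivalent to
a Seifert matrix with two rows less. -/
theorem exists_reduction (A : SqM) (hA : IsSeifert A) (x : A.ι → ℤ) (hx0 : x ≠ 0)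
    (hx : x ᵥ* A.V = 0) : ∃ B : SqM, SEq A B ∧ Fintype.card B.ι + 2 = Fintype.card A.ι ∧
      alex A = X * alex B := by
  obtain ⟨d, x', c, hd, hxx', hc⟩ := exists_coprime x hx0
  have hx' : x' ᵥ* A.V = 0 := by
    ext j
    have h1 := congrFun hx j
    simp only [vecMul, dotProduct, Pi.zero_apply] at h1 ⊢
    have h2 : d * ∑ i, x' i * A.V i j = 0 := by
      rw [Finset.mul_sum, ← h1]
      exact Finset.sum_congr rfl fun i _ => by rw [hxx' i]; ring
    exact (mul_eq_zero.1 h2).resolve_left hd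
  have hxw : ∀ w : A.ι → ℤ, x' ⬝ᵥ (A.V *ᵥ w) = 0 := by
    intro w
    rw [dotProduct_mulVec, hx', zero_dotProduct]
  have hu : IsUnit (A.V - A.Vᵀ).det := by rw [hA]; exact isUnit_one
  let y0 : A.ι → ℤ := (A.V - A.Vᵀ)⁻¹ *ᵥ c
  have hy0 : y0 ⬝ᵥ (A.V *ᵥ x') = -1 := by
    have h1 : (A.V - A.Vᵀ) *ᵥ y0 = c := by
      simp only [y0]
      rw [mulVec_mulVec, Matrix.mul_nonsing_inv _ hu, one_mulVec]
    have h2 : x' ⬝ᵥ ((A.V - A.Vᵀ) *ᵥ y0) = 1 := by rw [h1, hc]
    rw [sub_mulVec, dotProduct_sub, hxw, mulVec_transpose, zero_sub] at h2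
    have h3 : x' ⬝ᵥ (y0 ᵥ* A.V) = y0 ⬝ᵥ (A.V *ᵥ x') := by
      rw [dotProduct_comm, ← dotProduct_mulVec]
    rw [h3] at h2
    linarith
  let x1 : A.ι → ℤ := -x'
  let q : ℤ := y0 ⬝ᵥ (A.V *ᵥ y0)
  let y : A.ι → ℤ := y0 - q • x1
  have hx1 : x1 ᵥ* A.V = 0 := by simp [x1, neg_vecMul, hx']
  have hx1w : ∀ w : A.ι → ℤ, x1 ⬝ᵥ (A.V *ᵥ w) = 0 := by
    intro w
    rw [dotProduct_mulVec, hx1, zero_dotProduct]
  have hy0x : y0 ⬝ᵥ (A.V *ᵥ x1) = 1 := by simp [x1, mulVec_neg, hy0]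
  have hyx : y ⬝ᵥ (A.V *ᵥ x1) = 1 := by
    simp only [y, sub_dotProduct, smul_dotProduct, hx1w, hy0x, smul_zero, sub_zero]
  have hyy : y ⬝ᵥ (A.V *ᵥ y) = 0 := by
    simp only [y, sub_dotProduct, smul_dotProduct, hx1w, mulVec_sub, mulVec_smul, dotProduct_sub,
      dotProduct_smul, hy0x, smul_zero, sub_zero, smul_eq_mul, mul_one]
    simp [q]
  obtain ⟨m, P, Q, U, ξ, hm, hPQ, hQP, h⟩ := exists_decomp A.V x1 y hx1 hyx hyy
  let B : SqM := { ι := Fin m, V := U }
  have h1 : SEq A (enlR B ξ) := SEq.congr A (enlR B ξ) P Q hPQ hQP h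
  refine ⟨B, h1.trans (SEq.row B ξ).symm, by simpa [B] using hm, ?_⟩
  rw [← alex_row B ξ]
  exact (alex_congr (A := A) (B := enlR B ξ) P Q hPQ hQP h).symm

end Pool.Agent.Sym20c8
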