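import Pool.Agent.Sym20c8.Trotter

/-! # Every nontrivial Seifert matrix has algebraic symbionts -/

namespace Pool.Agent.Sym20c8

open Matrix Polynomial

lemma neg_one_pow_card (A : SqM) (hA : IsSeifert A) : (-1 : ℤ) ^ Fintype.card A.ι = 1 := by
  have h1 : (A.V - A.Vᵀ)ᵀ = -(A.V - A.Vᵀ) := by
    rw [Matrix.transpose_sub, Matrix.transpose_transpose]; abel
  have h2 := congrArg Matrix.det h1
  rw [det_transpose, det_neg, hA, mul_one] at h2
  exact h2.symm

lemma axM_neg {ι : Type} (V : Matrix ι ι ℤ) : axM (-V) = -axM V := by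
  ext1 i j
  simp [axM_apply]
  ring

lemma algebraMap_inj : Function.Injective (algebraMap ℤ[X] KK) :=
  IsFractionRing.injective ℤ[X] KK

section

variable (T : SqM) (v : T.ι → ℤ)

/-- the symbiont as a bundled matrix -/
def symW (ε k : ℤ) : SqM where
  ι := (T.ι ⊕ Fin 2) ⊕ Fin 2
  V := wP T.V v ε k

/-- the untwisted symbiont -/
def symT : SqM where
  ι := (T.ι ⊕ Fin 2) ⊕ Fin 2
  V := tP T.V v

variable {T} {v}

lemma alex_symT (hT : IsSeifert T) {g : ℕ} (hg : alex T = X ^ g) :
    alex (symT T v) = X ^ (g + 2) := by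
  have h1 : alex (symT T v) = X ^ 2 * (axM (-T.V)).det := det_axM_tP T.V v
  rw [h1, axM_neg, det_neg]
  have h2 : ((-1 : ℤ[X])) ^ Fintype.card T.ι = 1 := by
    have := neg_one_pow_card T hT
    exact_mod_cast congrArg (Int.cast : ℤ → ℤ[X]) this
  rw [h2, one_mul]
  have h3 : (axM T.V).det = X ^ g := hg
  rw [h3, ← pow_add]
  congr 1
  omega

lemma exists_sol {g : ℕ} (hg : alex T = X ^ g) :
    ∃ m : T.ι → KK, aK T.V *ᵥ m = fun i => (v i : KK) := by
  have hdet : (aK T.V).det = tt ^ g := by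
    rw [det_aK]
    have : (axM T.V).det = X ^ g := hg
    rw [this, map_pow]; rfl
  have hu : IsUnit (aK T.V).det := by
    rw [hdet]; exact (pow_ne_zero _ tt_ne).isUnit
  refine ⟨(aK T.V)⁻¹ *ᵥ fun i => (v i : KK), ?_⟩
  rw [mulVec_mulVec, Matrix.mul_nonsing_inv _ hu, one_mulVec]

/-- The Alexander polynomial of the symbiont. -/
lemma alex_symW (hT : IsSeifert T) {g : ℕ} (hg : alex T = X ^ g) (ε k : ℤ) (hε : ε * ε = 1) :
    alex (symW T v ε k)
      = X ^ (g + 2) + C (ε * k ^ 2) * ((1 - X) ^ 2 * (X * alex (tw T (-ε) v))) := by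
  obtain ⟨m, hm⟩ := exists_sol (v := v) hg
  have h1 := det_aK_V T.V v m ε hm
  have h2 := det_aK_W T.V v m ε k hm
  apply algebraMap_inj
  have ht := tt_ne
  have hε' : (ε : KK) * (ε : KK) = 1 := by exact_mod_cast congrArg (Int.cast : ℤ → KK) hε
  have e1 : (aK T.V).det = tt ^ g := by
    rw [det_aK]
    have : (axM T.V).det = X ^ g := hg
    rw [this, map_pow]; rfl
  have e2 : (aK (tP T.V v)).det = tt ^ (g + 2) := by
    rw [det_aK]
    have : (axM (tP T.V v)).det = X ^ (g + 2) := alex_symT hT hg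
    rw [this, map_pow]; rfl
  have e3 : algebraMap ℤ[X] KK (alex (symW T v ε k)) = (aK (wP T.V v ε k)).det := by
    rw [det_aK]; rfl
  have e4 : algebraMap ℤ[X] KK (alex (tw T (-ε) v))
      = (aK (T.V + (-ε) • vecMulVec v v)).det := by
    rw [det_aK]; rfl
  have e5 : algebraMap ℤ[X] KK X = tt := rfl
  have e6 : ∀ c : ℤ, algebraMap ℤ[X] KK (C c) = (c : KK) := by
    intro c
    have : (C c : ℤ[X]) = ((c : ℤ) : ℤ[X]) := by simp
    rw [this, map_intCast]
  simp only [map_add, map_mul, map_pow, map_sub, map_one, e3, e4, e5, e6, h1, h2, e1, e2]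
  set μ := (fun i => (v i : KK)) ⬝ᵥ m
  have hts : tt * tt⁻¹ = 1 := mul_inv_cancel₀ ht
  field_simp
  linear_combination (tt ^ g * tt ^ 2 * (1 - tt) ^ 3 * (k : KK) ^ 2 * μ) * hε'

lemma isSeifert_symT (hT : IsSeifert T) {g : ℕ} (hg : alex T = X ^ g) :
    IsSeifert (symT T v) := by
  rw [isSeifert_iff, alex_symT hT hg]; simp

lemma isSeifert_symW (hT : IsSeifert T) {g : ℕ} (hg : alex T = X ^ g) (ε k : ℤ)
    (hε : ε * ε = 1) : IsSeifert (symW T v ε k) := by
  rw [isSeifert_iff, alex_symW hT hg ε k hε]; simp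

lemma unknots_zero_of_alex {A : SqM} (hA : IsSeifert A) {k : ℕ} (hk : alex A = X ^ k) :
    Unknots 0 A := trotter _ A rfl hA ⟨k, hk⟩

/-- The symbiont has algebraic unknotting number at most one. -/
lemma unknots_one_symW (hT : IsSeifert T) {g : ℕ} (hg : alex T = X ^ g) (ε k : ℤ) :
    Unknots 1 (symW T v ε k) := by
  refine unknots_tw (symW T v ε k) 1 (Or.inl rfl) (uP v ε k) ?_
  have h : tw (symW T v ε k) 1 (uP v ε k) = symT T v := by
    have h0 : wP T.V v ε k + (1 : ℤ) • vecMulVec (uP v ε k) (uP v ε k) = tP T.V v := by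
      unfold wP
      rw [add_assoc, ← add_smul]
      simp
    unfold tw symW symT
    simp only
    rw [h0]
  rw [h]
  exact unknots_zero_of_alex (isSeifert_symT hT hg) (alex_symT hT hg)

/-- One operation unknots the sum of `T - ε v vᵀ` and its symbiont. -/
lemma unknots_one_sum (hT : IsSeifert T) {g : ℕ} (hg : alex T = X ^ g) (ε k : ℤ)
    (hε : ε = 1 ∨ ε = -1) : Unknots 1 (sumM (tw T (-ε) v) (symW T v ε k)) := by
  have hε' : ε * ε = 1 := by rcases hε with rfl | rfl <;> norm_num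
  refine unknots_tw (sumM (tw T (-ε) v) (symW T v ε k)) ε hε (zP v) ?_
  obtain ⟨m, hm⟩ := exists_sol (v := v) hg
  have h1 := det_aK_Z T.V v m ε k hε' hm
  have e1 : (aK T.V).det = tt ^ g := by
    rw [det_aK]
    have : (axM T.V).det = X ^ g := hg
    rw [this, map_pow]; rfl
  have e2 : (aK (tP T.V v)).det = tt ^ (g + 2) := by
    rw [det_aK]
    have : (axM (tP T.V v)).det = X ^ (g + 2) := alex_symT hT hg
    rw [this, map_pow]; rfl
  rw [e1, e2] at h1
  have h2 : alex (tw (sumM (tw T (-ε) v) (symW T v ε k)) ε (zP v)) = X ^ (2 * g + 2) := by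
    apply algebraMap_inj
    have e3 : algebraMap ℤ[X] KK (alex (tw (sumM (tw T (-ε) v) (symW T v ε k)) ε (zP v)))
        = (aK (fromBlocks (T.V + (-ε) • vecMulVec v v) 0 0 (wP T.V v ε k)
      + ε • vecMulVec (zP v) (zP v))).det := by
      rw [det_aK]; rfl
    rw [e3, h1, ← pow_add, map_pow]
    have e5 : algebraMap ℤ[X] KK X = tt := rfl
    rw [e5]
    congr 1
    omega
  refine unknots_zero_of_alex ?_ h2
  rw [isSeifert_iff, h2]; simp

end

/-- Value at `-1` of the Alexander polynomial of a Seifert matrix is odd. -/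
lemma alex_neg_one_odd {A : SqM} (hA : IsSeifert A) : Odd ((alex A).eval (-1)) := by
  have h1 := Polynomial.sub_dvd_eval_sub (1 : ℤ) (-1) (alex A)
  rw [(isSeifert_iff A).1 hA] at h1
  obtain ⟨c, hc⟩ := h1
  exact ⟨-c, by linarith⟩

/-- The value at `-1` is, up to sign, an S-equivalence invariant. -/
lemma alex_neg_one_seq {A B : SqM} (h : SEq A B) :
    (alex A).eval (-1) = (alex B).eval (-1) ∨ (alex A).eval (-1) = -(alex B).eval (-1) := by
  obtain ⟨a, b, h⟩ := alex_seq h
  have h1 := congrArg (Polynomial.eval (-1)) h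
  simp only [eval_mul, eval_pow, eval_X] at h1
  rcases neg_one_pow_eq_or ℤ a with ha | ha <;> rcases neg_one_pow_eq_or ℤ b with hb | hb <;>
    rw [ha, hb] at h1
  · left; linarith
  · right; linarith
  · right; linarith
  · left; linarith

/-- The step: a matrix unknotted by `n + 1` operations has infinitely many symbionts. -/
theorem step : ∀ (n : ℕ) (A : SqM), Unknots (n + 1) A → ∃ W : ℕ → SqM,
    (∀ k, IsSeifert (W k) ∧ Unknots 1 (W k) ∧ ¬ Unknots 0 (W k) ∧ Unknots (n + 1) (sumM A (W k)))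
    ∧ ∀ j k, SEq (W j) (W k) → j = k := by
  intro n
  induction n with
  | zero =>
    intro A hA
    obtain ⟨ε, x, B, M, N, hε, h1, h2⟩ := hA
    obtain ⟨g, hg⟩ := alex_of_seq_empty h2
    set T := mur 0 x B M N with hTdef
    have hgT : alex T = X ^ (g + 1) := by
      rw [hTdef, alex_mur_zero, hg, pow_succ']
    have hT : IsSeifert T := by rw [isSeifert_iff, hgT]; simp
    have hε2 : -ε = 1 ∨ -ε = -1 := by rcases hε with rfl | rfl <;> simp
    have hε3 : -ε * -ε = 1 := by rcases hε with rfl | rfl <;> norm_num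
    let v : T.ι → ℤ := Sum.elim ![1, 0] 0
    have hAT : SEq A (tw T (-(-ε)) v) := by
      rw [neg_neg]
      have := mur_eq_tw ε x B M N
      rw [← this]
      exact h1
    have hV : IsSeifert (tw T (-(-ε)) v) := by
      have h : (tw T (-(-ε)) v).V - (tw T (-(-ε)) v).Vᵀ = T.V - T.Vᵀ := by
        unfold tw
        simp only [Matrix.transpose_add, Matrix.transpose_smul, transpose_vecMulVec]
        abel
      unfold IsSeifert
      rw [h]
      exact hT
    have hval : ∀ k : ℤ, (alex (symW T v (-ε) k)).eval (-1)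
        = (-1) ^ (g + 1) + 4 * (ε * k ^ 2) * (alex (tw T (-(-ε)) v)).eval (-1) := by
      intro k
      rw [alex_symW hT hgT (-ε) k hε3]
      simp only [eval_add, eval_mul, eval_pow, eval_X, eval_C, eval_sub, eval_one]
      ring
    obtain ⟨d, hd⟩ := alex_neg_one_odd hV
    refine ⟨fun k => symW T v (-ε) ((k : ℤ) + 1), fun k => ⟨isSeifert_symW hT hgT _ _ hε3,
      unknots_one_symW hT hgT _ _, ?_, ?_⟩, ?_⟩
    · intro h0
      obtain ⟨j, hj⟩ := alex_of_seq_empty h0
      have h3 := hval ((k : ℤ) + 1)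
      rw [hj, hd] at h3
      simp only [eval_pow, eval_X] at h3
      have h4 : (0 : ℤ) < ((k : ℤ) + 1) ^ 2 := by positivity
      have h5 : ε * ((k : ℤ) + 1) ^ 2 * (2 * d + 1) ≠ 0 := by
        refine mul_ne_zero (mul_ne_zero ?_ h4.ne') (by omega)
        rcases hε with rfl | rfl <;> norm_num
      rcases neg_one_pow_eq_or ℤ j with ha | ha <;>
        rcases neg_one_pow_eq_or ℤ (g + 1) with hb | hb <;> rw [ha, hb] at h3
      · apply h5; linarith
      · have : 2 * (ε * ((k : ℤ) + 1) ^ 2 * (2 * d + 1)) = 1 := by linarith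
        omega
      · have : 2 * (ε * ((k : ℤ) + 1) ^ 2 * (2 * d + 1)) = -1 := by linarith
        omega
      · apply h5; linarith
    · have h3 := unknots_one_sum (v := v) hT hgT (-ε) ((k : ℤ) + 1) hε2
      exact unknots_seq (seq_sum_left _ hAT) h3
    · intro j k hjk
      have h3 := alex_neg_one_seq hjk
      rw [hval, hval, hd] at h3
      have hε1 : ε * ε = 1 := by rcases hε with rfl | rfl <;> norm_num
      have h6 : (2 * d + 1) ≠ 0 := by omega
      rcases h3 with h3 | h3
      · have h4 : ((j : ℤ) + 1) ^ 2 * (ε * (2 * d + 1)) = ((k : ℤ) + 1) ^ 2 * (ε * (2 * d + 1)) := by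
          linarith
        have h5 : ε * (2 * d + 1) ≠ 0 := by
          refine mul_ne_zero ?_ h6
          rcases hε with rfl | rfl <;> norm_num
        have h7 := mul_right_cancel₀ h5 h4
        have h8 : ((j : ℤ) + 1) = (k : ℤ) + 1 := by
          have := (sq_eq_sq₀ (by positivity) (by positivity)).1 h7
          exact this
        omega
      · exfalso
        have h9 : 2 * (ε * (((j : ℤ) + 1) ^ 2 + ((k : ℤ) + 1) ^ 2) * (2 * d + 1))
            = -(-1) ^ (g + 1) := by linarith
        rcases neg_one_pow_eq_or ℤ (g + 1) with hb | hb <;> rw [hb] at h9 <;> omega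
  | succ n ih =>
    intro A hA
    obtain ⟨ε, x, B, M, N, hε, h1, h2⟩ := hA
    obtain ⟨W, hW, hWW⟩ := ih B h2
    refine ⟨W, fun k => ?_, hWW⟩
    obtain ⟨h3, h4, h5, h6⟩ := hW k
    refine ⟨h3, h4, h5, ?_⟩
    exact ⟨ε, x, sumM B (W k), Sum.elim M 0, Sum.elim N 0, hε,
      (seq_sum_left (W k) h1).trans (seq_mur_sum ε x B (W k) M N), h6⟩

end Pool.Agent.Sym20c8
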