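import Pool.Agent.Sym20c8.Equiv

/-! # Trotter's theorem, finiteness of the algebraic unknotting number, block sums -/

namespace Pool.Agent.Sym20c8

open Matrix Polynomial

lemma seq_empty_of_card {A : SqM} (h : Fintype.card A.ι = 0) : SEq A emptyM := by
  have h1 : IsEmpty A.ι := Fintype.card_eq_zero_iff.1 h
  have h2 : IsEmpty emptyM.ι := inferInstanceAs (IsEmpty Empty)
  exact seq_equiv A emptyM (Equiv.equivOfIsEmpty _ _) (fun i => h1.elim i)

lemma coeff_alex_zero (A : SqM) : (alex A).coeff 0 = A.V.det := by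
  have h := Polynomial.coeff_det_X_add_C_zero (-A.Vᵀ) A.V
  have h2 : alex A = ((X : ℤ[X]) • (-A.Vᵀ).map C + A.V.map C).det := by
    unfold alex axM
    congr 1
    ext1 i j
    simp
    ring
  rw [h2, h]

lemma coeff_alex_card (A : SqM) :
    (alex A).coeff (Fintype.card A.ι) = (-1) ^ Fintype.card A.ι * A.V.det := by
  have h := Polynomial.coeff_det_X_add_C_card (-A.Vᵀ) A.V
  have h2 : alex A = ((X : ℤ[X]) • (-A.Vᵀ).map C + A.V.map C).det := by
    unfold alex axM
    congr 1
    ext1 i j
    simp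
    ring
  rw [h2, h, det_neg, det_transpose]

/-- Trotter: a Seifert matrix with trivial Alexander polynomial is S-equivalent to the empty
matrix. -/
theorem trotter : ∀ (n : ℕ) (A : SqM), Fintype.card A.ι = n → IsSeifert A →
    (∃ k : ℕ, alex A = X ^ k) → SEq A emptyM := by
  intro n
  induction n using Nat.strong_induction_on with
  | _ n ih =>
    intro A hn hA hk
    obtain ⟨k, hk⟩ := hk
    rcases Nat.eq_zero_or_pos n with h0 | h0
    · exact seq_empty_of_card (hn.trans h0)
    · have hk0 : k ≠ 0 := by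
        rintro rfl
        rw [pow_zero] at hk
        have h1 := coeff_alex_zero A
        have h2 := coeff_alex_card A
        rw [hk, coeff_one_zero] at h1
        rw [hk, ← h1, coeff_one, if_neg (by omega)] at h2
        have : ((-1 : ℤ) ^ Fintype.card A.ι * 1) ≠ 0 := by positivity
        exact this h2.symm
      have hdet : A.V.det = 0 := by
        rw [← coeff_alex_zero, hk, coeff_X_pow, if_neg (by omega)]
      obtain ⟨x, hx0, hx⟩ := Matrix.exists_vecMul_eq_zero_iff.2 hdet
      obtain ⟨B, h1, h2, h3⟩ := exists_reduction A hA x hx0 hx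
      obtain ⟨j, rfl⟩ := Nat.exists_eq_succ_of_ne_zero hk0
      rw [hk, Nat.succ_eq_add_one, pow_succ'] at h3
      have h4 : alex B = X ^ j := (mul_left_cancel₀ X_ne_zero h3).symm
      exact h1.trans (ih (Fintype.card B.ι) (by omega) B rfl ((isSeifert_seq h1).1 hA) ⟨j, h4⟩)

lemma alex_of_seq_empty {A : SqM} (h : SEq A emptyM) : ∃ k : ℕ, alex A = X ^ k := by
  obtain ⟨a, b, h⟩ := alex_seq h
  rw [alex_empty, mul_one] at h
  rcases le_or_gt a b with hab | hab
  · refine ⟨b - a, ?_⟩
    have h1 : (X : ℤ[X]) ^ a * alex A = X ^ a * X ^ (b - a) := by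
      rw [h, ← pow_add]; congr 1; omega
    exact mul_left_cancel₀ (pow_ne_zero _ X_ne_zero) h1
  · exfalso
    have h1 : (X : ℤ[X]) ^ b * (X ^ (a - b) * alex A) = X ^ b * 1 := by
      rw [← mul_assoc, ← pow_add, mul_one, ← h]; congr 2; omega
    have h2 := mul_left_cancel₀ (pow_ne_zero _ X_ne_zero) h1
    have h3 := congrArg (Polynomial.eval 0) h2
    rw [eval_mul, eval_pow, eval_X, zero_pow (by omega)] at h3
    simp at h3

lemma isSeifert_empty : IsSeifert emptyM := by
  rw [isSeifert_iff, alex_empty]; simp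

lemma isSeifert_of_seq_empty {A : SqM} (h : SEq A emptyM) : IsSeifert A :=
  (isSeifert_seq h).2 isSeifert_empty

/-! ## Finiteness -/

/-- being unknotted by finitely many operations -/
def FinU (A : SqM) : Prop := ∃ n, Unknots n A

lemma finU_tw (A : SqM) (c : ℤ) (hc : c = 1 ∨ c = -1) (u : A.ι → ℤ) (h : FinU (tw A c u)) :
    FinU A := by
  obtain ⟨n, h⟩ := h
  exact ⟨n + 1, unknots_tw A c hc u h⟩

/-- matrices whose addition does not change finiteness -/
def symG (ι : Type) [Fintype ι] [DecidableEq ι] : AddSubgroup (Matrix ι ι ℤ) where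
  carrier := {Y | ∀ V : Matrix ι ι ℤ, FinU { ι := ι, V := V + Y } ↔ FinU { ι := ι, V := V }}
  add_mem' := by
    intro a b ha hb V
    rw [← add_assoc, hb, ha]
  zero_mem' := by intro V; rw [add_zero]
  neg_mem' := by
    intro a ha V
    rw [← ha (V + -a)]
    simp

lemma symG_vec (ι : Type) [Fintype ι] [DecidableEq ι] (u : ι → ℤ) :
    vecMulVec u u ∈ symG ι := by
  intro V
  constructor
  · intro h
    refine finU_tw { ι := ι, V := V } 1 (Or.inl rfl) u ?_
    unfold tw
    simpa using h
  · intro h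
    refine finU_tw { ι := ι, V := V + vecMulVec u u } (-1) (Or.inr rfl) u ?_
    unfold tw
    simpa using h

lemma symG_pair (ι : Type) [Fintype ι] [DecidableEq ι] (i j : ι) :
    vecMulVec (Pi.single i (1 : ℤ)) (Pi.single j 1) + vecMulVec (Pi.single j (1 : ℤ))
      (Pi.single i 1) ∈ symG ι := by
  have h1 := symG_vec ι (Pi.single i 1 + Pi.single j 1)
  have h2 := symG_vec ι (Pi.single i 1)
  have h3 := symG_vec ι (Pi.single j 1)
  have h4 := (symG ι).sub_mem ((symG ι).sub_mem h1 h2) h3
  convert h4 using 1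
  rw [vecMulVec_add, add_vecMulVec, add_vecMulVec]
  abel

theorem finU_of_seifert : ∀ (n : ℕ) (A : SqM), Fintype.card A.ι = n → IsSeifert A → FinU A := by
  intro n
  induction n using Nat.strong_induction_on with
  | _ n ih =>
    intro A hn hA
    rcases Nat.eq_zero_or_pos n with h0 | h0
    · exact ⟨0, seq_empty_of_card (hn.trans h0)⟩
    · obtain ⟨i0⟩ : Nonempty A.ι := Fintype.card_pos_iff.1 (by omega)
      -- the symmetric matrix killing the row `i0`
      let Y : Matrix A.ι A.ι ℤ := ∑ j, (-A.V i0 j) • (if j = i0 then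
        vecMulVec (Pi.single i0 (1 : ℤ)) (Pi.single i0 1)
        else vecMulVec (Pi.single i0 (1 : ℤ)) (Pi.single j 1)
          + vecMulVec (Pi.single j (1 : ℤ)) (Pi.single i0 1))
      have hY : Y ∈ symG A.ι := by
        refine (symG A.ι).sum_mem fun j _ => (symG A.ι).zsmul_mem ?_ _
        split_ifs
        · exact symG_vec _ _
        · exact symG_pair _ _ _
      have hYs : Yᵀ = Y := by
        simp only [Y, Matrix.transpose_sum, Matrix.transpose_smul]
        refine Finset.sum_congr rfl fun j _ => ?_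
        congr 1
        split_ifs
        · rw [transpose_vecMulVec]
        · rw [Matrix.transpose_add, transpose_vecMulVec, transpose_vecMulVec, add_comm]
      have hYr : ∀ l, Y i0 l = -A.V i0 l := by
        intro l
        simp only [Y, Matrix.sum_apply, Matrix.smul_apply, smul_eq_mul]
        rw [Finset.sum_eq_single l]
        · split_ifs with h
          · subst h; simp [vecMulVec_apply]
          · simp [vecMulVec_apply, Pi.single_apply, Ne.symm h]
        · intro j _ hj
          split_ifs with h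
          · subst h
            simp [vecMulVec_apply, Pi.single_apply, Ne.symm hj]
          · simp [vecMulVec_apply, Pi.single_apply, Ne.symm hj, Ne.symm h]
        · simp
      let A' : SqM := { ι := A.ι, V := A.V + Y }
      have hA' : IsSeifert A' := by
        have : A'.V - A'.Vᵀ = A.V - A.Vᵀ := by
          simp only [A', Matrix.transpose_add, hYs]
          abel
        unfold IsSeifert
        rw [this]
        exact hA
      have hx : (Pi.single i0 1 : A'.ι → ℤ) ᵥ* A'.V = 0 := by
        ext l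
        have : A'.V i0 l = 0 := by
          simp only [A', Matrix.add_apply, hYr l]
          ring
        simp [this]
      have hx0 : (Pi.single i0 1 : A'.ι → ℤ) ≠ 0 := by
        intro h
        have := congrFun h i0
        simp at this
      obtain ⟨B, h1, h2, h3⟩ := exists_reduction A' hA' _ hx0 hx
      have hcard : Fintype.card A'.ι = Fintype.card A.ι := rfl
      obtain ⟨m, hm⟩ := ih (Fintype.card B.ι) (by omega) B rfl ((isSeifert_seq h1).1 hA')
      exact (hY A.V).1 ⟨m, unknots_seq h1 hm⟩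

/-! ## Block sums -/

lemma seq_sum_left {A B : SqM} (D : SqM) (h : SEq A B) : SEq (sumM A D) (sumM B D) := by
  induction h with
  | refl A => exact SEq.refl _
  | symm _ ih => exact ih.symm
  | trans _ _ ih1 ih2 => exact ih1.trans ih2
  | congr A B P Q hPQ hQP h =>
    refine SEq.congr (sumM A D) (sumM B D) (fromBlocks P 0 0 (1 : Matrix D.ι D.ι ℤ))
      (fromBlocks Q 0 0 (1 : Matrix D.ι D.ι ℤ)) ?_ ?_ ?_
    · have : fromBlocks P 0 0 (1 : Matrix D.ι D.ι ℤ) * fromBlocks Q 0 0 (1 : Matrix D.ι D.ι ℤ)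
        = 1 := by
        rw [fromBlocks_multiply]; simp [hPQ]
      exact this
    · have : fromBlocks Q 0 0 (1 : Matrix D.ι D.ι ℤ) * fromBlocks P 0 0 (1 : Matrix D.ι D.ι ℤ)
        = 1 := by
        rw [fromBlocks_multiply]; simp [hQP]
      exact this
    · have : fromBlocks B.V 0 0 D.V = fromBlocks P 0 0 (1 : Matrix D.ι D.ι ℤ)
        * fromBlocks A.V 0 0 D.V * (fromBlocks P 0 0 (1 : Matrix D.ι D.ι ℤ))ᵀ := by
        rw [fromBlocks_transpose, fromBlocks_multiply, fromBlocks_multiply]
        simp [h]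
      exact this
  | row A ξ =>
    refine (SEq.row (sumM A D) (Sum.elim ξ 0)).trans ?_
    let e : (A.ι ⊕ D.ι) ⊕ Fin 2 ≃ (A.ι ⊕ Fin 2) ⊕ D.ι :=
      (Equiv.sumAssoc _ _ _).trans (((Equiv.refl _).sumCongr (Equiv.sumComm _ _)).trans
        (Equiv.sumAssoc _ _ _).symm)
    refine seq_equiv (enlR (sumM A D) (Sum.elim ξ 0)) (sumM (enlR A ξ) D) e ?_
    rintro ((i | i) | i) ((j | j) | j)
    · rfl
    · rfl
    · rfl
    · rfl
    · rfl
    · fin_cases j <;> rfl
    · rfl
    · rfl
    · rfl
  | col A ξ =>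
    refine (SEq.col (sumM A D) (Sum.elim ξ 0)).trans ?_
    let e : (A.ι ⊕ D.ι) ⊕ Fin 2 ≃ (A.ι ⊕ Fin 2) ⊕ D.ι :=
      (Equiv.sumAssoc _ _ _).trans (((Equiv.refl _).sumCongr (Equiv.sumComm _ _)).trans
        (Equiv.sumAssoc _ _ _).symm)
    refine seq_equiv (enlC (sumM A D) (Sum.elim ξ 0)) (sumM (enlC A ξ) D) e ?_
    rintro ((i | i) | i) ((j | j) | j)
    · rfl
    · rfl
    · rfl
    · rfl
    · rfl
    · rfl
    · fin_cases i <;> rfl
    · fin_cases i <;> rfl
    · rfl

lemma seq_mur_sum (ε x : ℤ) (B D : SqM) (M N : B.ι → ℤ) :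
    SEq (sumM (mur ε x B M N) D) (mur ε x (sumM B D) (Sum.elim M 0) (Sum.elim N 0)) := by
  refine seq_equiv (sumM (mur ε x B M N) D)
    (mur ε x (sumM B D) (Sum.elim M 0) (Sum.elim N 0)) (Equiv.sumAssoc _ _ _) ?_
  rintro ((i | i) | i) ((j | j) | j)
  · rfl
  · fin_cases i <;> rfl
  · fin_cases i <;> rfl
  · rfl
  · rfl
  · rfl
  · fin_cases j <;> rfl
  · rfl
  · rfl

end Pool.Agent.Sym20c8
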